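import Mathlib
import Pool.Agent.V11299.SP.CsdC

/-! # MP_ca7d12_nt: the Markov spectrum of products of three linear forms in short windows

Let `M` be the set of the numbers `m(F)`, `F` a product of three independent real linear forms in
three variables.

1. If `m` is in `M`, then `m / n` is in `M` for every `n ≥ 1`; and `M` is contained in `[0, 7]`.
2. If infinitely many elements of `M` are at least `ε > 0`, then there is `c ≥ ε` such that every
   neighbourhood of `c / n`, `n ≥ 1`, contains infinitely many elements of `M`; for all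
   `0 < t ≤ c / 2` the interval `[t, t + (10/c) t²]` contains infinitely many elements of `M`.
3. The following are equivalent: `M ∩ [ε, ∞)` is finite for every `ε > 0`; for every `δ > 0` there
   is `t < δ`, `t > 0`, such that `M ∩ [t, 2t)` is finite; for all `C, δ > 0` there is `0 < t < δ`
   such that `M ∩ [t, t + C t²]` is finite. -/

set_option autoImplicit false

open Filter Topology Matrix H715R2

namespace Pool.Agent.Results.MP_ca7d12_nt.FiniteWindows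

open V11299.SP

/-- the set of the numbers `m(F)` -/
def M : Set ℝ :=
  {m : ℝ | ∃ A : Matrix (Fin 3) (Fin 3) ℝ, A.det ≠ 0 ∧
    m = sInf {r : ℝ | ∃ x : Fin 3 → ℤ, x ≠ 0 ∧
      r = |(∏ i : Fin 3, ∑ j : Fin 3, A i j * (x j : ℝ)) / A.det|}}

lemma glb_iff {A : Matrix (Fin 3) (Fin 3) ℝ} (hA : A.det ≠ 0) (m : ℝ) :
    IsGLB {r : ℝ | ∃ x : Fin 3 → ℤ, x ≠ 0 ∧
      r = |(∏ i : Fin 3, ∑ j : Fin 3, A i j * (x j : ℝ)) / A.det|} m ↔ Gl A (m * |A.det|) := by
  have hV : 0 < |A.det| := abs_pos.2 hA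
  have hF : ∀ x : Fin 3 → ℤ, |(∏ i : Fin 3, ∑ j : Fin 3, A i j * (x j : ℝ)) / A.det| =
      |FF A (iR x)| / |A.det| := fun x => abs_div _ _
  constructor
  · rintro ⟨h1, h2⟩
    constructor
    · rintro _ ⟨x, hx, rfl⟩
      have := h1 ⟨x, hx, rfl⟩
      rw [hF, le_div_iff₀ hV] at this
      exact this
    · intro b hb
      rw [← div_le_iff₀ hV]
      refine h2 ?_
      rintro _ ⟨x, hx, rfl⟩
      rw [hF]
      exact div_le_div_of_nonneg_right (hb ⟨x, hx, rfl⟩) hV.le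
  · rintro ⟨h1, h2⟩
    constructor
    · rintro _ ⟨x, hx, rfl⟩
      rw [hF, le_div_iff₀ hV]
      exact h1 ⟨x, hx, rfl⟩
    · intro b hb
      have : b * |A.det| ≤ m * |A.det| := by
        refine h2 ?_
        rintro _ ⟨x, hx, rfl⟩
        have := hb ⟨x, hx, rfl⟩
        rw [hF, le_div_iff₀ hV] at this
        exact this
      exact le_of_mul_le_mul_right this hV

lemma mem_M {m : ℝ} : m ∈ M ↔ ∃ A : Matrix (Fin 3) (Fin 3) ℝ, A.det ≠ 0 ∧ Gl A (m * |A.det|) := by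
  constructor
  · rintro ⟨A, hA, rfl⟩
    refine ⟨A, hA, (glb_iff hA _).1 (isGLB_csInf ⟨_, fun _ => 1, ?_, rfl⟩ ⟨0, ?_⟩)⟩
    · intro h
      have := congrFun h 0
      simp at this
    · rintro _ ⟨x, _, rfl⟩
      exact abs_nonneg _
  · rintro ⟨A, hA, h⟩
    have h1 := (glb_iff hA m).2 h
    refine ⟨A, hA, (h1.csInf_eq ⟨_, fun _ => 1, ?_, rfl⟩).symm⟩
    intro h
    have := congrFun h 0
    simp at this

lemma M_div {m : ℝ} (h : m ∈ M) {n : ℕ} (hn : 0 < n) : m / n ∈ M := by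
  rw [mem_M] at h ⊢
  obtain ⟨g, hdet, hG⟩ := h
  obtain ⟨A, hA, hGA⟩ := exists_div_csd (by norm_num) hG n hn
  have hn' : (0 : ℝ) < n := by exact_mod_cast hn
  have hdetA : (g * zR A).det = g.det * n := by
    rw [Matrix.det_mul, det_zR, hA]
    push_cast
    rfl
  refine ⟨g * zR A, ?_, ?_⟩
  · rw [hdetA]
    exact mul_ne_zero hdet hn'.ne'
  · rw [hdetA, abs_mul, abs_of_pos hn']
    have : m / n * (|g.det| * n) = m * |g.det| := by
      field_simp
    rwa [this]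

lemma M_sub : M ⊆ Set.Icc 0 7 := by
  intro m hm
  obtain ⟨g, hdet, hG⟩ := mem_M.1 hm
  have hV : 0 < |g.det| := abs_pos.2 hdet
  obtain ⟨t, ht, h1, h2⟩ := exists_norm (by norm_num) hdet
  have hG' : Gl (t • g) m := (gl_norm hV h2).1 hG
  refine ⟨gl_nonneg hG', ?_⟩
  obtain ⟨x, hx, hxT⟩ := mink_prod (d := 3) (by norm_num) 1 (((3 : ℕ).factorial : ℝ) + 1) one_pos (by
    norm_num [Nat.factorial]) (t • g) h1
  have h3 := ((gl_iff _ _).1 hG').1 x hx
  norm_num [Nat.factorial] at hxT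
  linarith

lemma exists_acc {ε : ℝ} (h : ¬ (M ∩ Set.Ici ε).Finite) :
    ∃ c : ℝ, ε ≤ c ∧ ∀ U ∈ 𝓝 c, (M ∩ U).Infinite := by
  by_contra hcon
  push Not at hcon
  refine h ?_
  have hfin : (M ∩ Set.Icc ε 7).Finite := by
    refine IsCompact.induction_on (p := fun U => (M ∩ U).Finite)
      (isCompact_Icc (a := ε) (b := (7 : ℝ))) (by simp)
      (fun s t hst ht => ht.subset (Set.inter_subset_inter_right _ hst))
      (fun s t hs ht => by
        rw [Set.inter_union_distrib_left]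
        exact hs.union ht) (fun c hc => ?_)
    obtain ⟨U, hU, hfin⟩ := hcon c hc.1
    exact ⟨U, mem_nhdsWithin_of_mem_nhds hU, hfin⟩
  exact hfin.subset fun m hm => ⟨hm.1, hm.2, (M_sub hm.1).2⟩

lemma acc_div {c : ℝ} (h : ∀ U ∈ 𝓝 c, (M ∩ U).Infinite) {n : ℕ} (hn : 0 < n) (U : Set ℝ)
    (hU : U ∈ 𝓝 (c / n)) : (M ∩ U).Infinite := by
  have hn' : (n : ℝ) ≠ 0 := by exact_mod_cast hn.ne'
  have hcont : ContinuousAt (fun m : ℝ => m / n) c := by fun_prop
  have hV := hcont.preimage_mem_nhds hU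
  refine Set.infinite_of_injOn_mapsTo (f := fun m : ℝ => m / n) ?_ ?_ (h _ hV)
  · intro a _ b _ hab
    simp only at hab
    field_simp at hab
    exact hab
  · intro a ha
    exact ⟨M_div ha.1 hn, ha.2⟩

lemma window {c : ℝ} (hc : 0 < c) (h : ∀ U ∈ 𝓝 c, (M ∩ U).Infinite) {t : ℝ} (ht : 0 < t)
    (htc : t ≤ c / 2) : (M ∩ Set.Icc t (t + 10 / c * t ^ 2)).Infinite := by
  have h1 : t ^ 2 / c ≤ t := by
    rw [div_le_iff₀ hc]
    nlinarith
  have h0 : 0 < t ^ 2 / c := by positivity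
  obtain ⟨n, hn, h2, h3⟩ := exists_near (c := c) (t := t + t ^ 2 / c) hc (by linarith) (by linarith)
  have h4 : (t + t ^ 2 / c) ^ 2 ≤ 4 * t ^ 2 := by nlinarith
  have h5 : 2 / c * (t + t ^ 2 / c) ^ 2 ≤ 8 * (t ^ 2 / c) := by
    calc 2 / c * (t + t ^ 2 / c) ^ 2 ≤ 2 / c * (4 * t ^ 2) :=
          mul_le_mul_of_nonneg_left h4 (by positivity)
      _ = _ := by ring
  have h6 : 10 / c * t ^ 2 = 10 * (t ^ 2 / c) := by ring
  refine (acc_div h hn (Set.Ioo t (t + 10 / c * t ^ 2)) (Ioo_mem_nhds (by linarith) ?_)).mono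
    (Set.inter_subset_inter_right _ Set.Ioo_subset_Icc_self)
  rw [h6]
  linarith

theorem result :
    (∀ m ∈ M, ∀ n : ℕ, 0 < n → m / n ∈ M) ∧ M ⊆ Set.Icc 0 7 ∧
    (∀ ε : ℝ, 0 < ε → ¬ (M ∩ Set.Ici ε).Finite → ∃ c : ℝ, ε ≤ c ∧
      (∀ n : ℕ, 0 < n → ∀ U ∈ 𝓝 (c / n), (M ∩ U).Infinite) ∧
      ∀ t : ℝ, 0 < t → t ≤ c / 2 → (M ∩ Set.Icc t (t + 10 / c * t ^ 2)).Infinite) ∧
    List.TFAE [
      ∀ ε : ℝ, 0 < ε → (M ∩ Set.Ici ε).Finite,
      ∀ δ : ℝ, 0 < δ → ∃ t : ℝ, 0 < t ∧ t < δ ∧ (M ∩ Set.Ico t (2 * t)).Finite,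
      ∀ C : ℝ, 0 < C → ∀ δ : ℝ, 0 < δ → ∃ t : ℝ, 0 < t ∧ t < δ ∧
        (M ∩ Set.Icc t (t + C * t ^ 2)).Finite] := by
  refine ⟨fun m hm n hn => M_div hm hn, M_sub, fun ε hε h => ?_, ?_⟩
  · obtain ⟨c, hc, hacc⟩ := exists_acc h
    exact ⟨c, hc, fun n hn U hU => acc_div hacc hn U hU,
      fun t ht htc => window (hε.trans_le hc) hacc ht htc⟩
  · tfae_have 1 → 2 := by
      intro h δ hδ
      refine ⟨δ / 2, by linarith, by linarith, (h (δ / 2) (by linarith)).subset ?_⟩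
      exact Set.inter_subset_inter_right _ fun x hx => hx.1
    tfae_have 2 → 3 := by
      intro h C hC δ hδ
      obtain ⟨t, ht0, ht, hfin⟩ := h (min δ (1 / C)) (lt_min hδ (by positivity))
      refine ⟨t, ht0, ht.trans_le (min_le_left _ _), hfin.subset ?_⟩
      refine Set.inter_subset_inter_right _ fun x hx => ⟨hx.1, lt_of_le_of_lt hx.2 ?_⟩
      have h1 := ht.trans_le (min_le_right _ _)
      rw [lt_div_iff₀ hC] at h1
      nlinarith
    tfae_have 3 → 1 := by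
      intro h ε hε
      by_contra hinf
      obtain ⟨c, hc, hacc⟩ := exists_acc hinf
      have hc0 := hε.trans_le hc
      obtain ⟨t, ht0, ht, hfin⟩ := h (10 / c) (by positivity) (c / 2) (by linarith)
      exact window hc0 hacc ht0 ht.le hfin
    tfae_finish

end Pool.Agent.Results.MP_ca7d12_nt.FiniteWindows
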